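import Pool.Agent.Lib.MP_5d3ebc_al.Defs

/-!
# The colored algebra of a complex given by its list of facets
-/

set_option linter.unusedSectionVars false

namespace Pool.Agent.Lib.MP_5d3ebc_al

open MvPolynomial Finset

variable {V : Type} [Fintype V] [DecidableEq V] {d : ℕ}

/-- `F j i` is the vertex of color `i` of the facet `j`, and `Δ` is the complex with these
facets. -/
structure IsFacets {J : Type} (Δ : AbstractSimplicialComplex V) (c : V → Fin d)
    (F : J → Fin d → V) : Prop where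
  color : ∀ j i, c (F j i) = i
  mem_iff : ∀ s : Finset V, s ∈ Δ ↔ s.Nonempty ∧ ∃ j, ∀ v ∈ s, F j (c v) = v

section basic

variable {J : Type} (K : Type*) [Field K] (Δ : AbstractSimplicialComplex V) (c : V → Fin d)

/-- The class of a variable. -/
noncomputable def x (v : V) : ColoredAlgebra K Δ c := Ideal.Quotient.mk _ (X v)

lemma x_mem (v : V) : x K Δ c v ∈ gradedPart K Δ c 1 :=
  ⟨X v, isHomogeneous_X K v, rfl⟩

lemma prod_x_mem {ι : Type*} (s : Finset ι) (g : ι → V) :
    ∏ i ∈ s, x K Δ c (g i) ∈ gradedPart K Δ c s.card := by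
  refine ⟨∏ i ∈ s, X (g i), ?_, ?_⟩
  · have := IsHomogeneous.prod s (fun i => (X (g i) : MvPolynomial V K)) (fun _ => 1)
      (fun i _ => isHomogeneous_X K (g i))
    simpa using this
  · change Ideal.Quotient.mk _ (∏ i ∈ s, X (g i)) = _
    rw [map_prod]
    rfl

lemma prod_x_eq_zero {s : Finset V} (hs : s.Nonempty) (h : s ∉ Δ) : ∏ v ∈ s, x K Δ c v = 0 := by
  have : ∏ v ∈ s, x K Δ c v = Ideal.Quotient.mk (coloredIdeal K Δ c) (∏ v ∈ s, X v) := by
    rw [map_prod]; rfl
  rw [this, Ideal.Quotient.eq_zero_iff_mem]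
  exact Ideal.mem_sup_left (Ideal.subset_span ⟨s, hs, h, rfl⟩)

lemma sum_x_color (i : Fin d) : ∑ v ∈ univ.filter (fun v => c v = i), x K Δ c v = 0 := by
  have : ∑ v ∈ univ.filter (fun v => c v = i), x K Δ c v =
      Ideal.Quotient.mk (coloredIdeal K Δ c) (theta K c i) := by
    rw [theta, map_sum]; rfl
  rw [this, Ideal.Quotient.eq_zero_iff_mem]
  exact Ideal.mem_sup_right (Ideal.subset_span ⟨i, rfl⟩)

lemma mem_gradedPart_one {a : ColoredAlgebra K Δ c} (ha : a ∈ gradedPart K Δ c 1) :
    ∃ b : V → K, a = ∑ v, b v • x K Δ c v := by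
  rw [gradedPart, homogeneousSubmodule_one_eq_span_X, Submodule.map_span, ← Set.range_comp] at ha
  obtain ⟨b, hb⟩ := (Submodule.mem_span_range_iff_exists_fun K).mp ha
  exact ⟨b, hb.symm⟩

variable {Δ c} {F : J → Fin d → V}

lemma mul_x_of_color (hF : IsFacets Δ c F) {u v : V} (h : c u = c v) :
    x K Δ c u * x K Δ c v = 0 := by
  have hne : ∀ u v : V, u ≠ v → c u = c v → x K Δ c u * x K Δ c v = 0 := by
    intro u v huv h
    have hs : ({u, v} : Finset V) ∉ Δ := by
      rw [hF.mem_iff]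
      rintro ⟨-, j, hj⟩
      have h1 := hj u (by simp)
      have h2 := hj v (by simp)
      rw [← h, h1] at h2
      exact huv h2
    have := prod_x_eq_zero K Δ c (s := {u, v}) (by simp) hs
    rwa [prod_pair huv] at this
  by_cases huv : u = v
  · subst huv
    have h1 := sum_x_color K Δ c (c u)
    have h2 := congrArg (fun y => x K Δ c u * y) h1
    simp only [mul_zero, mul_sum] at h2
    have hmem : u ∈ univ.filter (fun v => c v = c u) := mem_filter.mpr ⟨mem_univ u, rfl⟩
    have h3 : ∑ v ∈ (univ.filter (fun v => c v = c u)).erase u, x K Δ c u * x K Δ c v = 0 := by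
      apply sum_eq_zero
      intro w hw
      rw [mem_erase, mem_filter] at hw
      exact hne _ _ hw.1.symm hw.2.2.symm
    rw [← add_sum_erase _ _ hmem, h3, add_zero] at h2
    exact h2
  · exact hne u v huv h

variable (Δ c F) in
/-- The monomial of the face of the facet `j` with color set `T`. -/
noncomputable def mon (j : J) (T : Finset (Fin d)) : ColoredAlgebra K Δ c :=
  ∏ i ∈ T, x K Δ c (F j i)

lemma mon_congr {j k : J} {T : Finset (Fin d)} (h : ∀ i ∈ T, F j i = F k i) :
    mon K Δ c F j T = mon K Δ c F k T :=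
  prod_congr rfl fun i hi => by rw [h i hi]

lemma mon_mem (j : J) (T : Finset (Fin d)) : mon K Δ c F j T ∈ gradedPart K Δ c T.card :=
  prod_x_mem K Δ c T (F j)

lemma x_mul_mon_of_mem (hF : IsFacets Δ c F) {u : V} {j : J} {T : Finset (Fin d)}
    (h : c u ∈ T) : x K Δ c u * mon K Δ c F j T = 0 := by
  rw [mon, ← mul_prod_erase _ _ h, ← mul_assoc, mul_x_of_color K hF (by rw [hF.color]), zero_mul]

lemma x_mul_mon_eq {u : V} {i : Fin d} {j l : J} {T : Finset (Fin d)}
    (h : i ∉ T) (hl : F l i = u) (hl' : ∀ i' ∈ T, F l i' = F j i') :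
    x K Δ c u * mon K Δ c F j T = mon K Δ c F l (insert i T) := by
  rw [mon, mon, prod_insert h, hl]
  congr 1
  exact prod_congr rfl fun i hi => by rw [hl' i hi]

lemma x_mul_mon_eq_zero (hF : IsFacets Δ c F) {u : V} {j : J} {T : Finset (Fin d)}
    (h : c u ∉ T) (hl : ¬ ∃ l, F l (c u) = u ∧ ∀ i' ∈ T, F l i' = F j i') :
    x K Δ c u * mon K Δ c F j T = 0 := by
  have hinj : ∀ i ∈ T, ∀ i' ∈ T, F j i = F j i' → i = i' := fun i _ i' _ hi => by
    rw [← hF.color j i, ← hF.color j i', hi]
  have hu : u ∉ T.image (F j) := by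
    intro hu
    obtain ⟨i, hi, rfl⟩ := mem_image.mp hu
    rw [hF.color] at h
    exact h hi
  have h1 : x K Δ c u * mon K Δ c F j T = ∏ v ∈ insert u (T.image (F j)), x K Δ c v := by
    rw [prod_insert hu, prod_image hinj, mon]
  rw [h1]
  apply prod_x_eq_zero K Δ c (insert_nonempty _ _)
  rw [hF.mem_iff]
  rintro ⟨-, l, hl1⟩
  apply hl
  refine ⟨l, hl1 u (mem_insert_self _ _), fun i' hi' => ?_⟩
  have := hl1 (F j i') (mem_insert_of_mem (mem_image_of_mem _ hi'))
  rwa [hF.color] at this

end basic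

/-- A shelling order of the facets; `R j` is the color set of the restriction face of `j`. -/
structure IsShelling {m : ℕ} (F : Fin m → Fin d → V) (R : Fin m → Finset (Fin d)) : Prop where
  nb : ∀ j, ∀ i ∈ R j, ∃ k, k < j ∧ ∀ i', i' ≠ i → F k i' = F j i'
  new : ∀ j k, k < j → ∃ i ∈ R j, F k i ≠ F j i

section shelling

variable {m : ℕ} (K : Type*) [Field K] {Δ : AbstractSimplicialComplex V} {c : V → Fin d}
  {F : Fin m → Fin d → V} {R : Fin m → Finset (Fin d)}

omit [Fintype V] [DecidableEq V] in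
lemma IsShelling.exists_le (hR : IsShelling F R) (T : Finset (Fin d)) (j : Fin m) :
    ∃ k ≤ j, R k ⊆ T ∧ ∀ i ∈ T, F k i = F j i := by
  induction j using WellFoundedLT.induction with
  | ind j ih =>
    by_cases h : R j ⊆ T
    · exact ⟨j, le_rfl, h, fun _ _ => rfl⟩
    · obtain ⟨i, hi, hiT⟩ := not_subset.mp h
      obtain ⟨k, hk, hk'⟩ := hR.nb j i hi
      obtain ⟨l, hl, hl', hl''⟩ := ih k hk
      refine ⟨l, hl.trans hk.le, hl', fun i' hi' => ?_⟩
      rw [hl'' i' hi', hk' i']
      rintro rfl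
      exact hiT hi'

variable (Δ c F R) in
/-- The span of the restriction monomials of color set `T`. -/
noncomputable def Sp (T : Finset (Fin d)) : Submodule K (ColoredAlgebra K Δ c) :=
  Submodule.span K {a | ∃ k, R k = T ∧ a = mon K Δ c F k T}

lemma mon_mem_Sp_of_subset (hF : IsFacets Δ c F) (hR : IsShelling F R) (k : Fin m)
    (T : Finset (Fin d)) (hT : R k ⊆ T) : mon K Δ c F k T ∈ Sp K Δ c F R T := by
  induction k using WellFoundedGT.induction with
  | ind k ih =>
    by_cases heq : R k = T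
    · exact Submodule.subset_span ⟨k, heq, rfl⟩
    · obtain ⟨i, hiT, hiR⟩ : ∃ i ∈ T, i ∉ R k := by
        by_contra hcon
        push Not at hcon
        exact heq (Subset.antisymm hT hcon)
      have hT' : R k ⊆ T.erase i := fun i' hi' => mem_erase.mpr
        ⟨fun h => hiR (h ▸ hi'), hT hi'⟩
      have h1 : (∑ v ∈ univ.filter (fun v => c v = i), x K Δ c v) * mon K Δ c F k (T.erase i) = 0 := by
        rw [sum_x_color, zero_mul]
      have hmem : F k i ∈ univ.filter (fun v => c v = i) :=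
        mem_filter.mpr ⟨mem_univ _, hF.color k i⟩
      rw [← add_sum_erase _ _ hmem, add_mul,
        x_mul_mon_eq K (notMem_erase i T) rfl (fun _ _ => rfl), insert_erase hiT] at h1
      rw [eq_neg_of_add_eq_zero_left h1]
      apply Submodule.neg_mem
      rw [sum_mul]
      apply Submodule.sum_mem
      intro u hu
      rw [mem_erase, mem_filter] at hu
      obtain ⟨hu1, -, hu2⟩ := hu
      subst hu2
      by_cases hl : ∃ l, F l (c u) = u ∧ ∀ i' ∈ T.erase (c u), F l i' = F k i'
      · obtain ⟨l, hl1, hl2⟩ := hl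
        rw [x_mul_mon_eq K (notMem_erase (c u) T) hl1 hl2, insert_erase hiT]
        obtain ⟨l', hl', hRl', hFl'⟩ := hR.exists_le T l
        rw [← mon_congr K hFl']
        apply ih l' _ hRl'
        rcases lt_trichotomy k l' with h | h | h
        · exact h
        · exfalso
          subst h
          exact hu1 (by rw [hFl' _ hiT, hl1])
        · exfalso
          obtain ⟨i0, hi0, hne⟩ := hR.new k l' h
          apply hne
          rw [hFl' i0 (hT hi0), hl2 i0 (hT' hi0)]
      · rw [x_mul_mon_eq_zero K hF (notMem_erase (c u) T) hl]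
        exact Submodule.zero_mem _

lemma mon_mem_Sp (hF : IsFacets Δ c F) (hR : IsShelling F R) (j : Fin m)
    (T : Finset (Fin d)) : mon K Δ c F j T ∈ Sp K Δ c F R T := by
  obtain ⟨k, -, h1, h2⟩ := hR.exists_le T j
  rw [← mon_congr K h2]
  exact mon_mem_Sp_of_subset K hF hR k T h1

variable (Δ c F) in
/-- The span of the face monomials with `n` colors, one of which is `i₀`. -/
noncomputable def Mo (i₀ : Fin d) (n : ℕ) : Submodule K (ColoredAlgebra K Δ c) :=
  Submodule.span K {a | ∃ j T, T.card = n ∧ i₀ ∈ T ∧ a = mon K Δ c F j T}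

lemma mul_mem_Mo (hF : IsFacets Δ c F) (i₀ : Fin d) (n : ℕ) {ℓ a : ColoredAlgebra K Δ c}
    (hℓ : ℓ ∈ gradedPart K Δ c 1) (ha : a ∈ Mo K Δ c F i₀ n) :
    ℓ * a ∈ Mo K Δ c F i₀ (n + 1) := by
  obtain ⟨b, rfl⟩ := mem_gradedPart_one K Δ c hℓ
  rw [sum_mul]
  apply Submodule.sum_mem
  intro v _
  rw [smul_mul_assoc]
  apply Submodule.smul_mem
  unfold Mo at ha
  induction ha using Submodule.span_induction with
  | mem a h =>
    obtain ⟨j, T, hT, hi, rfl⟩ := h
    by_cases hv : c v ∈ T
    · rw [x_mul_mon_of_mem K hF hv]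
      exact Submodule.zero_mem _
    · by_cases hl : ∃ l, F l (c v) = v ∧ ∀ i' ∈ T, F l i' = F j i'
      · obtain ⟨l, hl1, hl2⟩ := hl
        rw [x_mul_mon_eq K hv hl1 hl2]
        apply Submodule.subset_span
        exact ⟨l, _, by rw [card_insert_of_notMem hv, hT], mem_insert_of_mem hi, rfl⟩
      · rw [x_mul_mon_eq_zero K hF hv hl]
        exact Submodule.zero_mem _
  | zero => rw [mul_zero]; exact Submodule.zero_mem _
  | add a b _ _ h1 h2 => rw [mul_add]; exact Submodule.add_mem _ h1 h2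
  | smul r a _ h1 => rw [mul_smul_comm]; exact Submodule.smul_mem _ _ h1

lemma pow_mul_mem_Mo (hF : IsFacets Δ c F) (i₀ : Fin d) (n : ℕ) {ℓ a : ColoredAlgebra K Δ c}
    (hℓ : ℓ ∈ gradedPart K Δ c 1) (ha : a ∈ Mo K Δ c F i₀ n) (k : ℕ) :
    ℓ ^ k * a ∈ Mo K Δ c F i₀ (n + k) := by
  induction k with
  | zero => simpa using ha
  | succ k ih =>
    rw [pow_succ', mul_assoc, ← add_assoc]
    exact mul_mem_Mo K hF i₀ _ hℓ ih

lemma x_mem_Mo (hF : IsFacets Δ c F) (v : V) : x K Δ c v ∈ Mo K Δ c F (c v) 1 := by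
  have hv : {v} ∈ Δ := Δ.singleton_mem v
  rw [hF.mem_iff] at hv
  obtain ⟨-, j, hj⟩ := hv
  apply Submodule.subset_span
  refine ⟨j, {c v}, card_singleton _, mem_singleton_self _, ?_⟩
  rw [mon, prod_singleton, hj v (mem_singleton_self v)]

lemma finrank_Mo_le (hF : IsFacets Δ c F) (hR : IsShelling F R) (i₀ : Fin d) (n : ℕ) :
    Module.Finite K (Mo K Δ c F i₀ n) ∧ Module.finrank K (Mo K Δ c F i₀ n) ≤
      (univ.filter (fun k => i₀ ∈ R k ∧ (R k).card = n)).card := by
  classical
  set S : Finset (ColoredAlgebra K Δ c) :=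
    (univ.filter (fun k => i₀ ∈ R k ∧ (R k).card = n)).image (fun k => mon K Δ c F k (R k)) with hS
  have hle : Mo K Δ c F i₀ n ≤ Submodule.span K (S : Set (ColoredAlgebra K Δ c)) := by
    unfold Mo
    rw [Submodule.span_le]
    rintro a ⟨j, T, hT, hi, rfl⟩
    have h1 := mon_mem_Sp K hF hR j T
    have h2 : Sp K Δ c F R T ≤ Submodule.span K (S : Set (ColoredAlgebra K Δ c)) := by
      apply Submodule.span_mono
      rintro b ⟨k, hk, rfl⟩
      rw [hS, coe_image]
      refine ⟨k, ?_, by subst hk; rfl⟩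
      rw [mem_coe, mem_filter]
      exact ⟨mem_univ _, by rw [hk]; exact hi, by rw [hk]; exact hT⟩
    exact h2 h1
  have hfin : Module.Finite K (Submodule.span K (S : Set (ColoredAlgebra K Δ c))) :=
    Module.Finite.span_of_finite K S.finite_toSet
  constructor
  · exact Submodule.finiteDimensional_of_le hle
  · calc Module.finrank K (Mo K Δ c F i₀ n)
        ≤ Module.finrank K (Submodule.span K (S : Set (ColoredAlgebra K Δ c))) :=
          Submodule.finrank_mono hle
      _ ≤ S.card := finrank_span_finset_le_card S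
      _ ≤ _ := card_image_le

end shelling

end Pool.Agent.Lib.MP_5d3ebc_al
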