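import Pool.Agent.Lib.MP_5d3ebc_al.Suspension
import Pool.Agent.Lib.MP_5d3ebc_al.Data

/-!
# The complex of the 24-cell: certificates
-/

namespace Pool.Agent.Lib.MP_5d3ebc_al.Cell24

open Finset

instance : Nonempty (Fin 192) := ⟨0⟩

/-- The balanced 3-sphere. -/
def Δ₀ : AbstractSimplicialComplex (Fin 48) := complexOf F c surj_F

lemma isFacets : IsFacets Δ₀ c F := isFacets_complexOf surj_F color_F

lemma isShelling : IsShelling F R where
  nb := by
    intro j i hi
    rw [R, mem_filter] at hi
    exact ⟨nb j i, nb_lt j i hi.2, F_nb j i⟩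
  new := by
    intro j k hk
    obtain ⟨i, h1, h2⟩ := new j k hk
    exact ⟨i, mem_filter.mpr ⟨mem_univ _, h2⟩, h1⟩

lemma isOriented : IsOriented F sg where
  inj := by
    intro j k h
    by_contra hne
    rcases lt_or_gt_of_ne hne with h1 | h1
    · obtain ⟨i, h2, -⟩ := new k j h1
      exact h2 (by rw [h])
    · obtain ⟨i, h2, -⟩ := new j k h1
      exact h2 (by rw [h])
  unit := by
    intro j
    unfold sg
    split_ifs
    · exact Or.inl rfl
    · exact Or.inr rfl
  nb := by
    intro j i
    refine ⟨nb j i, nb_ne j i, sg_nb j i, fun l => ⟨fun h => ?_, ?_⟩⟩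
    · fin_cases i
      · exact uniq0 j l (h 1 (by decide)) (h 2 (by decide)) (h 3 (by decide))
      · exact uniq1 j l (h 0 (by decide)) (h 2 (by decide)) (h 3 (by decide))
      · exact uniq2 j l (h 0 (by decide)) (h 1 (by decide)) (h 3 (by decide))
      · exact uniq3 j l (h 0 (by decide)) (h 1 (by decide)) (h 2 (by decide))
    · rintro (rfl | rfl)
      · exact fun _ _ => rfl
      · exact F_nb j i

lemma dot_cast (j : Fin 192) (v : Fin 48) :
    (fun i => (phi j i : ℝ)) ⬝ᵥ (fun i => (p v i : ℝ)) = ((dot j v : ℤ) : ℝ) := by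
  rw [dotProduct, Fin.sum_univ_four, dot]
  push_cast
  ring

lemma sphereCert : SphereCert F c (fun v i => (p v i : ℝ)) (fun j i => (phi j i : ℝ)) 30 where
  color := color_F
  pos := by norm_num
  on := by
    intro j v hv
    rw [dot_cast, dot_on j v hv]
    norm_num
  off := by
    intro j v hv
    rw [dot_cast]
    have := dot_off j v hv
    exact_mod_cast this
  nb := fun j i => ⟨nb j i, F_nb_ne j i, F_nb j i⟩

lemma isSphere : IsSimplicialSphere 4 Δ₀ :=
  sphereCert.isSimplicialSphere Δ₀ (fun _ => Iff.rfl)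

lemma isBalanced : IsBalanced Δ₀ c := isFacets.isBalanced 0 (by norm_num)

lemma count : (univ.filter (fun k => (0 : Fin 4) ∈ R k ∧ (R k).card = 4 - 1)).card + 1 <
    (univ.filter (fun v => c v = 0)).card := by
  have h1 := card_R
  have h2 := card_color
  change (univ.filter (fun k => (0 : Fin 4) ∈ R k ∧ (R k).card = 3)).card + 1 < _
  rw [h1, h2]
  norm_num

lemma not_SLP (K : Type*) [Field K] : ¬ StrongLefschetz (gradedPart K Δ₀ c) :=
  not_hasSLP K isFacets isShelling isOriented (by norm_num) 0 count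

/-- The suspension. -/
def Δ₁ : AbstractSimplicialComplex (Fin 48 ⊕ Bool) :=
  complexOf (susF F) (susC c) (sus_surj surj_F)

lemma isFacets₁ : IsFacets Δ₁ (susC c) (susF F) :=
  isFacets_complexOf (sus_surj surj_F) (sus_color color_F)

lemma isSphere₁ : IsSimplicialSphere 5 Δ₁ :=
  sphereCert.sus.isSimplicialSphere Δ₁ (fun _ => Iff.rfl)

lemma isBalanced₁ : IsBalanced Δ₁ (susC c) := isFacets₁.isBalanced (0, true) (by norm_num)

lemma not_WLP (K : Type*) [Field K] : ¬ WeakLefschetz (gradedPart K Δ₁ (susC c)) := by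
  obtain ⟨I, hI⟩ := exists_annihilated K isFacets isShelling isOriented (by norm_num) 0 count
  exact not_hasWLP_sus K isFacets isFacets₁ 1 I hI

end Pool.Agent.Lib.MP_5d3ebc_al.Cell24
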