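import Mathlib

/-!
# Definitions: balanced simplicial spheres, the colored algebra and Lefschetz properties

`AbstractSimplicialComplex V` is Mathlib's notion: a downward closed collection of nonempty
finite subsets of `V` (the faces) that contains all singletons.
-/

namespace Pool.Agent.Lib.MP_5d3ebc_al

open MvPolynomial

section complexes

variable {V : Type} [Fintype V] [DecidableEq V]

/-- The geometric realization of a simplicial complex on the finite vertex set `V`: the union,
over all faces `s`, of the simplices spanned by the basis vectors of `V → ℝ` indexed by `s`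
(with the subspace topology). -/
def realization (Δ : AbstractSimplicialComplex V) : Set (V → ℝ) :=
  {w | ∃ s ∈ Δ, (∀ v, 0 ≤ w v) ∧ (∀ v, v ∉ s → w v = 0) ∧ ∑ v, w v = 1}

/-- `Δ` is a simplicial `(d - 1)`-sphere: its geometric realization is homeomorphic to the
unit sphere of `d`-dimensional Euclidean space. -/
def IsSimplicialSphere (d : ℕ) (Δ : AbstractSimplicialComplex V) : Prop :=
  Nonempty (realization Δ ≃ₜ Metric.sphere (0 : EuclideanSpace ℝ (Fin d)) 1)

/-- `Δ` has dimension `d - 1` and `c` is a proper `d`-coloring of its graph. -/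
def IsBalanced {d : ℕ} (Δ : AbstractSimplicialComplex V) (c : V → Fin d) : Prop :=
  (∀ s ∈ Δ, s.card ≤ d) ∧ (∃ s ∈ Δ, s.card = d) ∧
    ∀ u v : V, u ≠ v → ({u, v} : Finset V) ∈ Δ → c u ≠ c v

end complexes

section lefschetz

variable {K A : Type*} [Field K] [CommRing A] [Algebra K A]

/-- The weak Lefschetz property of the graded algebra `A = ⨁ G i`: there is a linear form `ℓ`
such that each multiplication `ℓ : G i → G (i + 1)` is injective or surjective. -/
def WeakLefschetz (G : ℕ → Submodule K A) : Prop :=
  ∃ ℓ ∈ G 1, ∀ i : ℕ,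
    (∀ a ∈ G i, ℓ * a = 0 → a = 0) ∨ (∀ b ∈ G (i + 1), ∃ a ∈ G i, ℓ * a = b)

/-- The strong Lefschetz property of the graded algebra `A = ⨁ G i`: there is a linear form `ℓ`
such that each multiplication `ℓ ^ k : G i → G (i + k)`, `k ≥ 1`, is injective or surjective. -/
def StrongLefschetz (G : ℕ → Submodule K A) : Prop :=
  ∃ ℓ ∈ G 1, ∀ i k : ℕ, 1 ≤ k →
    (∀ a ∈ G i, ℓ ^ k * a = 0 → a = 0) ∨ (∀ b ∈ G (i + k), ∃ a ∈ G i, ℓ ^ k * a = b)

end lefschetz

section algebra

variable {V : Type} [Fintype V] [DecidableEq V] {d : ℕ}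
variable (K : Type*) [Field K] (Δ : AbstractSimplicialComplex V) (c : V → Fin d)

/-- The Stanley-Reisner ideal: generated by the squarefree monomials of the non-faces. -/
noncomputable def srIdeal : Ideal (MvPolynomial V K) :=
  Ideal.span {f | ∃ s : Finset V, s.Nonempty ∧ s ∉ Δ ∧ f = ∏ v ∈ s, X v}

/-- The linear form `θ_i`: the sum of the variables of color `i`. -/
noncomputable def theta (i : Fin d) : MvPolynomial V K :=
  ∑ v ∈ Finset.univ.filter (fun v => c v = i), X v

/-- The ideal generated by the Stanley-Reisner ideal and the colored parameters `θ_i`. -/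
noncomputable def coloredIdeal : Ideal (MvPolynomial V K) :=
  srIdeal K Δ ⊔ Ideal.span (Set.range (theta K c))

/-- The algebra `S / (I_Δ + (Θ))`. -/
abbrev ColoredAlgebra : Type _ := MvPolynomial V K ⧸ coloredIdeal K Δ c

/-- The degree `i` part of `S / (I_Δ + (Θ))`: the image of the forms of degree `i`. -/
noncomputable def gradedPart (i : ℕ) : Submodule K (ColoredAlgebra K Δ c) :=
  (homogeneousSubmodule V K i).map (Ideal.Quotient.mkₐ K (coloredIdeal K Δ c)).toLinearMap

end algebra

end Pool.Agent.Lib.MP_5d3ebc_al
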