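import Pool.Agent.Lib.MP_5d3ebc_al.Algebra

/-!
# The fundamental class of an oriented balanced pseudomanifold
-/

set_option linter.unusedSectionVars false

namespace Pool.Agent.Lib.MP_5d3ebc_al

open MvPolynomial Finset

variable {V : Type} [Fintype V] [DecidableEq V] {d : ℕ}

/-- An orientation: each ridge lies in exactly two facets, of opposite signs. -/
structure IsOriented {J : Type} (F : J → Fin d → V) (sg : J → ℤ) : Prop where
  inj : Function.Injective F
  unit : ∀ j, sg j = 1 ∨ sg j = -1
  nb : ∀ j i, ∃ k, k ≠ j ∧ sg k = - sg j ∧
    ∀ l, (∀ i', i' ≠ i → F l i' = F j i') ↔ (l = j ∨ l = k)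

section

variable {J : Type} [Fintype J] [DecidableEq J] (K : Type*) [Field K]
  {Δ : AbstractSimplicialComplex V} {c : V → Fin d} {F : J → Fin d → V} {sg : J → ℤ}

/-- The exponent of the squarefree monomial of the facet `j`. -/
noncomputable def expo (F : J → Fin d → V) (j : J) : V →₀ ℕ := ∑ i, Finsupp.single (F j i) 1

lemma expo_apply (hF : IsFacets Δ c F) (j : J) (v : V) :
    expo F j v = if F j (c v) = v then 1 else 0 := by
  rw [expo, Finsupp.finsetSum_apply]
  simp only [Finsupp.single_apply]
  by_cases hv : F j (c v) = v
  · rw [if_pos hv, sum_eq_single (c v)]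
    · rw [if_pos hv]
    · intro i _ hi
      rw [if_neg]
      intro h
      apply hi
      rw [← hF.color j i, h]
    · intro h; exact absurd (mem_univ _) h
  · rw [if_neg hv, sum_eq_zero]
    intro i _
    rw [if_neg]
    intro h
    apply hv
    rw [← h, hF.color]

/-- The functional on the polynomial ring reading off the coefficients of the facets. -/
noncomputable def lam (F : J → Fin d → V) (sg : J → ℤ) : MvPolynomial V K →ₗ[K] K :=
  ∑ j, (sg j : K) • lcoeff K (expo F j)

lemma lam_monomial (m : V →₀ ℕ) :
    lam K F sg (monomial m 1) = ∑ j, if m = expo F j then (sg j : K) else 0 := by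
  rw [lam, LinearMap.sum_apply]
  refine sum_congr rfl fun j _ => ?_
  rw [LinearMap.smul_apply, lcoeff_apply, coeff_monomial, smul_eq_mul]
  split_ifs <;> simp

lemma lam_mul_of_mem (hF : IsFacets Δ c F) (hO : IsOriented F sg) {f : MvPolynomial V K}
    (hf : f ∈ coloredIdeal K Δ c) : ∀ g, lam K F sg (g * f) = 0 := by
  -- the set of all `f` such that `lam (g * f) = 0` for all `g` is an ideal
  let N : Ideal (MvPolynomial V K) :=
    { carrier := {f | ∀ g, lam K F sg (g * f) = 0}
      add_mem' := fun {a b} ha hb g => by rw [mul_add, map_add, ha, hb, add_zero]
      zero_mem' := fun g => by rw [mul_zero, map_zero]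
      smul_mem' := fun r a ha g => by rw [smul_eq_mul, ← mul_assoc]; exact ha _ }
  have hN : ∀ f : MvPolynomial V K, (∀ m, lam K F sg (monomial m 1 * f) = 0) → f ∈ N := by
    intro f h g
    have h1 : (lam K F sg) ∘ₗ (LinearMap.mulRight K f) = 0 := by
      apply (basisMonomials V K).ext
      intro m
      simpa using h m
    exact LinearMap.congr_fun h1 g
  have hle : coloredIdeal K Δ c ≤ N := by
    unfold coloredIdeal srIdeal
    rw [sup_le_iff, Ideal.span_le, Ideal.span_le]
    constructor
    · rintro _ ⟨s, hs, hs', rfl⟩
      apply hN
      intro m
      have h1 : (∏ v ∈ s, X v : MvPolynomial V K) =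
          monomial (∑ v ∈ s, Finsupp.single v 1) 1 := by
        rw [monomial_sum_one]; rfl
      rw [h1, monomial_mul, one_mul, lam_monomial]
      apply sum_eq_zero
      intro j _
      rw [if_neg]
      intro hj
      apply hs'
      rw [hF.mem_iff]
      refine ⟨hs, j, fun v hv => ?_⟩
      by_contra hne
      have h2 := expo_apply hF j v
      rw [if_neg hne, ← hj, Finsupp.add_apply, Finsupp.finsetSum_apply,
        ← add_sum_erase _ _ hv, Finsupp.single_eq_same] at h2
      omega
    · rintro _ ⟨i, rfl⟩
      apply hN
      intro m
      have h1 : ∀ v, (monomial m 1 * X v : MvPolynomial V K) =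
          monomial (m + Finsupp.single v 1) 1 := by
        intro v
        rw [monomial_add_single, pow_one]
      rw [theta, mul_sum, map_sum]
      simp only [h1, lam_monomial]
      rw [sum_comm]
      -- for a fixed facet only the vertex of color `i` counts
      have h2 : ∀ j, (∑ v ∈ univ.filter (fun v => c v = i),
          if m + Finsupp.single v 1 = expo F j then (sg j : K) else 0) =
          if m + Finsupp.single (F j i) 1 = expo F j then (sg j : K) else 0 := by
        intro j
        have hmem : F j i ∈ univ.filter (fun v => c v = i) :=
          mem_filter.mpr ⟨mem_univ _, hF.color j i⟩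
        apply sum_eq_single_of_mem _ hmem
        intro v hv hne
        rw [if_neg]
        intro h
        apply hne
        have h3 := expo_apply hF j v
        rw [← h, Finsupp.add_apply, Finsupp.single_eq_same] at h3
        have h4 : F j (c v) = v := by
          by_contra h5
          rw [if_neg h5] at h3
          omega
        rw [← h4, (mem_filter.mp hv).2]
      simp only [h2]
      by_cases hex : ∃ j, m + Finsupp.single (F j i) 1 = expo F j
      · obtain ⟨j, hj⟩ := hex
        obtain ⟨k, hkj, hk, hl⟩ := hO.nb j i
        have h3 : ∀ l, m + Finsupp.single (F l i) 1 = expo F l ↔ (l = j ∨ l = k) := by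
          intro l
          rw [← hl l]
          constructor
          · intro hl1 i' hi'
            -- evaluate at `F j i'`
            have h4 := DFunLike.congr_fun hj (F j i')
            have h5 := DFunLike.congr_fun hl1 (F j i')
            rw [expo_apply hF, hF.color, Finsupp.add_apply] at h4 h5
            rw [if_pos rfl, Finsupp.single_eq_of_ne] at h4
            · rw [Finsupp.single_eq_of_ne] at h5
              · by_contra hne
                rw [if_neg hne] at h5
                omega
              · intro h6
                apply hi'
                rw [← hF.color l i, ← h6, hF.color]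
            · intro h6
              apply hi'
              rw [← hF.color j i, ← h6, hF.color]
          · intro hl1
            have h4 : ∀ l, expo F l = (∑ i' ∈ univ.erase i, Finsupp.single (F l i') 1) +
                Finsupp.single (F l i) 1 := by
              intro l
              rw [expo, sum_erase_add _ _ (mem_univ i)]
            have h5 : m = ∑ i' ∈ univ.erase i, Finsupp.single (F j i') 1 := by
              have := h4 j
              rw [← hj] at this
              exact add_right_cancel this
            rw [h4 l, h5]
            congr 1
            refine sum_congr rfl fun i' hi' => ?_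
            rw [hl1 i' (ne_of_mem_erase hi')]
        simp only [h3]
        rw [← sum_filter]
        have h6 : univ.filter (fun l => l = j ∨ l = k) = {j, k} := by
          ext l; simp
        rw [h6, sum_pair hkj.symm, hk]
        push_cast
        ring
      · push Not at hex
        apply sum_eq_zero
        intro j _
        rw [if_neg (hex j)]
  exact hle hf

/-- The fundamental class as a functional on the algebra. -/
lemma exists_integral (hF : IsFacets Δ c F) (hO : IsOriented F sg) :
    ∃ I : ColoredAlgebra K Δ c →ₗ[K] K, ∀ j, I (mon K Δ c F j univ) = (sg j : K) := by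
  have hle : (coloredIdeal K Δ c).restrictScalars K ≤ LinearMap.ker (lam K F sg) := by
    intro f hf
    have := lam_mul_of_mem K hF hO hf 1
    rwa [one_mul] at this
  refine ⟨(Submodule.liftQ _ (lam K F sg) hle) ∘ₗ
    (Submodule.Quotient.restrictScalarsEquiv K (coloredIdeal K Δ c)).symm.toLinearMap, ?_⟩
  intro j
  have h1 : mon K Δ c F j univ = Submodule.Quotient.mk (monomial (expo F j) 1) := by
    rw [mon, expo, monomial_sum_one]
    change _ = Ideal.Quotient.mk _ _
    rw [map_prod]
    rfl
  rw [h1]
  change lam K F sg (monomial (expo F j) 1) = _
  rw [lam_monomial, sum_eq_single j, if_pos rfl]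
  · intro k _ hk
    rw [if_neg]
    intro h
    -- `F k = F j`
    have h2 : ∀ i, F k i = F j i := by
      intro i
      have h3 := DFunLike.congr_fun h (F j i)
      rw [expo_apply hF, expo_apply hF, hF.color, if_pos rfl] at h3
      by_contra hne
      rw [if_neg hne] at h3
      omega
    exact hk (hO.inj (funext h2))
  · intro h; exact absurd (mem_univ _) h

end

end Pool.Agent.Lib.MP_5d3ebc_al
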