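import Pool.Agent.Lib.MP_5d3ebc_al.Integral

/-!
# Failure of the strong Lefschetz property from a count of vertices
-/

set_option linter.unusedSectionVars false

namespace Pool.Agent.Lib.MP_5d3ebc_al

open MvPolynomial Finset

variable {V : Type} [Fintype V] [DecidableEq V] {d : ℕ} {m : ℕ} (K : Type*) [Field K]
  {Δ : AbstractSimplicialComplex V} {c : V → Fin d} {F : Fin m → Fin d → V} {sg : Fin m → ℤ}
  {R : Fin m → Finset (Fin d)}

/-- The value of the fundamental class on the product of a vertex of color `i₀` and a ridge. -/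
lemma integral_x_mul (hF : IsFacets Δ c F) (hO : IsOriented F sg)
    (I : ColoredAlgebra K Δ c →ₗ[K] K) (hI : ∀ j, I (mon K Δ c F j univ) = (sg j : K))
    (i₀ : Fin d) (j k : Fin m) (hkj : k ≠ j) (hk : sg k = - sg j)
    (hl : ∀ l, (∀ i', i' ≠ i₀ → F l i' = F j i') ↔ (l = j ∨ l = k)) (v : V) (hv : c v = i₀) :
    I (x K Δ c v * mon K Δ c F j (univ.erase i₀)) =
      (if v = F j i₀ then (sg j : K) else 0) - (if v = F k i₀ then (sg j : K) else 0) := by
  have hk' := (hl k).mpr (Or.inr rfl)
  have hne : F k i₀ ≠ F j i₀ := by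
    intro h
    apply hkj
    apply hO.inj
    funext i
    by_cases hi : i = i₀
    · rw [hi, h]
    · exact hk' i hi
  have hnot : i₀ ∉ univ.erase i₀ := notMem_erase _ _
  by_cases h1 : v = F j i₀
  · have h2 : v ≠ F k i₀ := by rw [h1]; exact hne.symm
    rw [if_pos h1, if_neg h2, x_mul_mon_eq K hnot h1.symm (fun _ _ => rfl),
      insert_erase (mem_univ _), hI, sub_zero]
  · by_cases h2 : v = F k i₀
    · rw [if_neg h1, if_pos h2, x_mul_mon_eq K hnot h2.symm
        (fun i' hi' => hk' i' (ne_of_mem_erase hi')), insert_erase (mem_univ _), hI, hk]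
      push_cast
      ring
    · rw [if_neg h1, if_neg h2, x_mul_mon_eq_zero K hF (by rw [hv]; exact hnot), map_zero, sub_zero]
      rintro ⟨l, hl1, hl2⟩
      rw [hv] at hl1
      rcases (hl l).mp (fun i' hi' => hl2 i' (mem_erase.mpr ⟨hi', mem_univ _⟩)) with h3 | h3
      · subst h3; exact h1 hl1.symm
      · subst h3; exact h2 hl1.symm

theorem exists_annihilated (hF : IsFacets Δ c F) (hR : IsShelling F R) (hO : IsOriented F sg)
    (hd : 2 ≤ d) (i₀ : Fin d)
    (hcount : (univ.filter (fun k => i₀ ∈ R k ∧ (R k).card = d - 1)).card + 1 <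
      (univ.filter (fun v => c v = i₀)).card) :
    ∃ I : ColoredAlgebra K Δ c →ₗ[K] K, ∀ ℓ ∈ gradedPart K Δ c 1,
      ∃ β ∈ gradedPart K Δ c 1, ℓ ^ (d - 2) * β = 0 ∧
        ∃ τ ∈ gradedPart K Δ c (d - 1), I (β * τ) ≠ 0 := by
  classical
  obtain ⟨I, hI⟩ := exists_integral K hF hO
  refine ⟨I, fun ℓ hℓ => ?_⟩
  obtain ⟨v₀, hv₀⟩ : (univ.filter (fun v => c v = i₀)).Nonempty := by
    rw [← card_pos]; omega
  have hv₀' : c v₀ = i₀ := (mem_filter.mp hv₀).2
  set W : Finset V := (univ.filter (fun v => c v = i₀)).erase v₀ with hW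
  have hWc : ∀ w ∈ W, c w = i₀ := fun w hw => (mem_filter.mp (mem_of_mem_erase hw)).2
  obtain ⟨hfin, hrank⟩ := finrank_Mo_le K hF hR i₀ (d - 1)
  -- the linear map
  let Φ : (W → K) →ₗ[K] Mo K Δ c F i₀ (d - 1) :=
    { toFun := fun b => ⟨ℓ ^ (d - 2) * ∑ w : W, b w • x K Δ c (w : V), by
        rw [mul_sum]
        apply Submodule.sum_mem
        intro w _
        rw [mul_smul_comm]
        apply Submodule.smul_mem
        have h1 := x_mem_Mo K hF (w : V)
        rw [hWc w w.2] at h1
        have h2 := pow_mul_mem_Mo K hF i₀ 1 hℓ h1 (d - 2)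
        have h3 : 1 + (d - 2) = d - 1 := by omega
        rwa [h3] at h2⟩
      map_add' := fun b b' => by
        apply Subtype.ext
        simp only [Pi.add_apply, add_smul, sum_add_distrib, mul_add, Submodule.coe_add]
      map_smul' := fun r b => by
        apply Subtype.ext
        simp only [Pi.smul_apply, smul_eq_mul, mul_smul, ← smul_sum, mul_smul_comm,
          RingHom.id_apply, Submodule.coe_smul] }
  have hlt : Module.finrank K (Mo K Δ c F i₀ (d - 1)) < Module.finrank K (W → K) := by
    rw [Module.finrank_fintype_fun_eq_card, Fintype.card_coe, hW, card_erase_of_mem hv₀]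
    omega
  obtain ⟨b, hb, hb0⟩ := Submodule.exists_mem_ne_zero_of_ne_bot
    (LinearMap.ker_ne_bot_of_finrank_lt (f := Φ) hlt)
  set β : ColoredAlgebra K Δ c := ∑ w : W, b w • x K Δ c (w : V) with hβ
  refine ⟨β, Submodule.sum_mem _ fun w _ => Submodule.smul_mem _ _ (x_mem K Δ c _), ?_, ?_⟩
  · exact congrArg Subtype.val hb
  · by_contra hcon
    push Not at hcon
    -- the coefficient function
    set B : V → K := fun v => if h : v ∈ W then b ⟨v, h⟩ else 0 with hB
    have hBW : ∀ w : W, B w = b w := fun w => by rw [hB]; simp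
    have hBv₀ : B v₀ = 0 := by
      rw [hB]; simp [hW]
    have hBW' : ∀ v, c v = i₀ → v ∉ W → v = v₀ := by
      intro v hv hvW
      by_contra hne
      exact hvW (mem_erase.mpr ⟨hne, mem_filter.mpr ⟨mem_univ _, hv⟩⟩)
    -- neighbours across color `i₀` have the same coefficient
    have hadj : ∀ j k, k ≠ j → (∀ i', i' ≠ i₀ → F k i' = F j i') →
        B (F j i₀) = B (F k i₀) := by
      intro j k hkj hk'
      obtain ⟨k2, hkj2, hk2, hl⟩ := hO.nb j i₀
      have hkk : k = k2 := ((hl k).mp hk').resolve_left hkj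
      subst hkk
      have h1 := hcon (mon K Δ c F j (univ.erase i₀)) (by
        have := mon_mem K (Δ := Δ) (c := c) (F := F) j (univ.erase i₀)
        rwa [card_erase_of_mem (mem_univ _), card_univ, Fintype.card_fin] at this)
      rw [hβ, sum_mul, map_sum] at h1
      have h2 : ∀ w : W, I (b w • x K Δ c (w : V) * mon K Δ c F j (univ.erase i₀)) =
          (if (w : V) = F j i₀ then B w * (sg j : K) else 0) -
            (if (w : V) = F k i₀ then B w * (sg j : K) else 0) := by
        intro w
        rw [smul_mul_assoc, map_smul, integral_x_mul K hF hO I hI i₀ j k hkj hk2 hl w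
          (hWc w w.2), smul_eq_mul, hBW]
        split_ifs <;> ring
      simp only [h2, sum_sub_distrib] at h1
      have h3 : ∀ u : V, c u = i₀ →
          (∑ w : W, if (w : V) = u then B w * (sg j : K) else 0) = B u * (sg j : K) := by
        intro u hu
        by_cases huW : u ∈ W
        · rw [sum_eq_single (⟨u, huW⟩ : W)]
          · rw [if_pos rfl]
          · intro w _ hw
            rw [if_neg]
            intro h
            exact hw (Subtype.ext h)
          · intro h; exact absurd (mem_univ _) h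
        · have := hBW' u hu huW
          subst this
          rw [hBv₀, zero_mul]
          apply sum_eq_zero
          intro w _
          rw [if_neg]
          intro h
          exact huW (h ▸ w.2)
      rw [h3 _ (hF.color j i₀), h3 _ (hF.color k i₀), ← sub_mul] at h1
      have hsg : (sg j : K) ≠ 0 := by
        rcases hO.unit j with h | h <;> rw [h] <;> simp
      exact sub_eq_zero.mp ((mul_eq_zero.mp h1).resolve_right hsg)
    -- hence the coefficient is constant
    obtain ⟨j₀, hj₀⟩ : ∃ j, F j i₀ = v₀ := by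
      have hv : {v₀} ∈ Δ := Δ.singleton_mem v₀
      rw [hF.mem_iff] at hv
      obtain ⟨-, j, hj⟩ := hv
      exact ⟨j, by rw [← hv₀']; exact hj v₀ (mem_singleton_self _)⟩
    have hm : 0 < m := j₀.pos
    have hconst : ∀ j : Fin m, B (F j i₀) = B (F ⟨0, hm⟩ i₀) := by
      intro j
      induction j using WellFoundedLT.induction with
      | ind j ih =>
        by_cases hj : j = ⟨0, hm⟩
        · rw [hj]
        · have h0 : (⟨0, hm⟩ : Fin m) < j := by
            rw [Fin.lt_def]
            have : (j : ℕ) ≠ 0 := fun h => hj (Fin.ext h)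
            exact Nat.pos_of_ne_zero this
          obtain ⟨i, hi, -⟩ := hR.new j _ h0
          obtain ⟨k, hk, hk'⟩ := hR.nb j i hi
          rw [← ih k hk]
          by_cases hii : i = i₀
          · subst hii
            exact hadj j k hk.ne hk'
          · rw [hk' i₀ (Ne.symm hii)]
    have hzero : ∀ v, c v = i₀ → B v = 0 := by
      intro v hv
      have hv' : {v} ∈ Δ := Δ.singleton_mem v
      rw [hF.mem_iff] at hv'
      obtain ⟨-, j, hj⟩ := hv'
      have h1 : F j i₀ = v := by rw [← hv]; exact hj v (mem_singleton_self _)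
      rw [← h1, hconst j, ← hconst j₀, hj₀, hBv₀]
    apply hb0
    funext w
    rw [← hBW, hzero _ (hWc w w.2)]
    rfl

/-- Failure of the strong Lefschetz property. -/
theorem not_hasSLP (hF : IsFacets Δ c F) (hR : IsShelling F R) (hO : IsOriented F sg)
    (hd : 3 ≤ d) (i₀ : Fin d)
    (hcount : (univ.filter (fun k => i₀ ∈ R k ∧ (R k).card = d - 1)).card + 1 <
      (univ.filter (fun v => c v = i₀)).card) :
    ¬ StrongLefschetz (gradedPart K Δ c) := by
  rintro ⟨ℓ, hℓ, h⟩
  obtain ⟨I, hI⟩ := exists_annihilated K hF hR hO (by omega) i₀ hcount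
  obtain ⟨β, hβ, hβ0, τ, hτ, hne⟩ := hI ℓ hℓ
  rcases h 1 (d - 2) (by omega) with h1 | h1
  · apply hne
    rw [h1 β hβ hβ0, zero_mul, map_zero]
  · have h3 : 1 + (d - 2) = d - 1 := by omega
    rw [h3] at h1
    obtain ⟨a, -, ha⟩ := h1 τ hτ
    apply hne
    rw [← ha, mul_left_comm, ← mul_assoc, hβ0, zero_mul, map_zero]

end Pool.Agent.Lib.MP_5d3ebc_al
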