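import Pool.Agent.Lib.MP_5d3ebc_al.Defs

/-!
# A certificate for being a simplicial sphere

If the complex is the boundary complex of a convex polytope containing the origin in its interior
(given by vertices `p v` and facet functionals `φ j`), radial projection is a homeomorphism onto
the unit sphere.
-/

set_option linter.unusedSectionVars false

namespace Pool.Agent.Lib.MP_5d3ebc_al

variable {V : Type} [Fintype V] [DecidableEq V] {d : ℕ} {J : Type}

/-- The data of a convex realization of the complex with facets `F j` (the vertex of color `i` of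
the facet `j` is `F j i`). -/
structure SphereCert (F : J → Fin d → V) (c : V → Fin d) (p : V → Fin d → ℝ)
    (φ : J → Fin d → ℝ) (N : ℝ) : Prop where
  color : ∀ j i, c (F j i) = i
  pos : 0 < N
  on : ∀ j v, F j (c v) = v → φ j ⬝ᵥ p v = N
  off : ∀ j v, F j (c v) ≠ v → φ j ⬝ᵥ p v < N
  nb : ∀ j i, ∃ k, F k i ≠ F j i ∧ ∀ i', i' ≠ i → F k i' = F j i'

namespace SphereCert

variable {F : J → Fin d → V} {c : V → Fin d} {p : V → Fin d → ℝ} {φ : J → Fin d → ℝ} {N : ℝ}

/-- The linear extension of the vertex map. -/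
def lin (p : V → Fin d → ℝ) (w : V → ℝ) : Fin d → ℝ := ∑ v, w v • p v

lemma dot_lin (x : Fin d → ℝ) (w : V → ℝ) : x ⬝ᵥ lin p w = ∑ v, w v * (x ⬝ᵥ p v) := by
  rw [lin, dotProduct_sum]
  exact Finset.sum_congr rfl fun v _ => by rw [dotProduct_smul, smul_eq_mul]

variable (h : SphereCert F c p φ N)
include h

lemma le (j : J) (v : V) : φ j ⬝ᵥ p v ≤ N := by
  by_cases hv : F j (c v) = v
  · exact (h.on j v hv).le
  · exact (h.off j v hv).le

lemma dot_lin_le (j : J) {w : V → ℝ} (hw : ∀ v, 0 ≤ w v) (hs : ∑ v, w v = 1) :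
    φ j ⬝ᵥ lin p w ≤ N := by
  rw [dot_lin]
  calc ∑ v, w v * (φ j ⬝ᵥ p v) ≤ ∑ v, w v * N :=
        Finset.sum_le_sum fun v _ => mul_le_mul_of_nonneg_left (h.le j v) (hw v)
    _ = N := by rw [← Finset.sum_mul, hs, one_mul]

lemma dot_lin_eq (j : J) {w : V → ℝ} (hj : ∀ v, w v ≠ 0 → F j (c v) = v)
    (hs : ∑ v, w v = 1) : φ j ⬝ᵥ lin p w = N := by
  rw [dot_lin]
  calc ∑ v, w v * (φ j ⬝ᵥ p v) = ∑ v, w v * N := by
        refine Finset.sum_congr rfl fun v _ => ?_
        by_cases hv : w v = 0
        · rw [hv, zero_mul, zero_mul]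
        · rw [h.on j v (hj v hv)]
    _ = N := by rw [← Finset.sum_mul, hs, one_mul]

lemma supp_of_dot_eq (j : J) {w : V → ℝ} (hw : ∀ v, 0 ≤ w v) (hs : ∑ v, w v = 1)
    (he : φ j ⬝ᵥ lin p w = N) (v : V) (hv : w v ≠ 0) : F j (c v) = v := by
  by_contra hne
  have h1 : ∑ v, w v * (φ j ⬝ᵥ p v) < ∑ v, w v * N := by
    apply Finset.sum_lt_sum (fun v _ => mul_le_mul_of_nonneg_left (h.le j v) (hw v))
    exact ⟨v, Finset.mem_univ _, mul_lt_mul_of_pos_left (h.off j v hne)
      (lt_of_le_of_ne (hw v) (Ne.symm hv))⟩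
  rw [← dot_lin, he, ← Finset.sum_mul, hs, one_mul] at h1
  exact lt_irrefl _ h1

/-- Reading off a coordinate with the help of the neighbouring facet. -/
lemma coord (j k : J) (i : Fin d) (hk : F k i ≠ F j i) (hk' : ∀ i', i' ≠ i → F k i' = F j i')
    {w : V → ℝ} (hj : ∀ v, w v ≠ 0 → F j (c v) = v) :
    (φ j - φ k) ⬝ᵥ lin p w = w (F j i) * (N - φ k ⬝ᵥ p (F j i)) := by
  rw [dot_lin, Finset.sum_eq_single (F j i)]
  · rw [sub_dotProduct, h.on j _ (by rw [h.color])]
  · intro v _ hv
    by_cases hw : w v = 0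
    · rw [hw, zero_mul]
    · have h1 := hj v hw
      have h2 : c v ≠ i := by
        rintro rfl
        exact hv h1.symm
      rw [sub_dotProduct, h.on j v h1, h.on k v (by rw [hk' _ h2, h1]), sub_self, mul_zero]
  · intro h'
    exact absurd (Finset.mem_univ _) h'

lemma coeff_pos (j k : J) (i : Fin d) (hk : F k i ≠ F j i) :
    0 < N - φ k ⬝ᵥ p (F j i) := by
  rw [sub_pos]
  apply h.off
  rwa [h.color]

/-- The weights on the vertices of the facet `j` given by a vector. -/
noncomputable def wt (_h : SphereCert F c p φ N) (j : J) (l : Fin d → ℝ) : V → ℝ :=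
  fun v => if F j (c v) = v then l (c v) else 0

lemma wt_supp (j : J) (l : Fin d → ℝ) (v : V) (hv : h.wt j l v ≠ 0) : F j (c v) = v := by
  by_contra hne
  exact hv (if_neg hne)

lemma wt_apply (j : J) (l : Fin d → ℝ) (i : Fin d) : h.wt j l (F j i) = l i := by
  rw [wt, h.color, if_pos rfl]

lemma sum_wt (j : J) (l : Fin d → ℝ) (g : V → ℝ → Fin d → ℝ) (hg : ∀ v, g v 0 = 0) :
    ∑ v, g v (h.wt j l v) = ∑ i, g (F j i) (l i) := by
  classical
  have hinj : Function.Injective (F j) := fun i i' hi => by
    rw [← h.color j i, ← h.color j i', hi]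
  rw [← Finset.sum_subset (Finset.subset_univ (Finset.univ.image (F j)))]
  · rw [Finset.sum_image (fun i _ i' _ hi => hinj hi)]
    exact Finset.sum_congr rfl fun i _ => by rw [h.wt_apply]
  · intro v _ hv
    have : h.wt j l v = 0 := by
      by_contra hne
      exact hv (Finset.mem_image.mpr ⟨c v, Finset.mem_univ _, h.wt_supp j l v hne⟩)
    rw [this, hg]

lemma exists_rep (j : J) (x : Fin d → ℝ) : ∃ l : Fin d → ℝ, lin p (h.wt j l) = x := by
  let L : (Fin d → ℝ) →ₗ[ℝ] (Fin d → ℝ) :=
    { toFun := fun l => ∑ i, l i • p (F j i)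
      map_add' := fun l l' => by
        simp only [Pi.add_apply, add_smul, Finset.sum_add_distrib]
      map_smul' := fun r l => by
        simp only [Pi.smul_apply, smul_eq_mul, mul_smul, Finset.smul_sum, RingHom.id_apply] }
  have hL : ∀ l, lin p (h.wt j l) = L l := by
    intro l
    exact h.sum_wt j l (fun v r => r • p v) (fun v => zero_smul _ _)
  have hinj : Function.Injective L := by
    rw [← LinearMap.ker_eq_bot, LinearMap.ker_eq_bot']
    intro l hl
    funext i
    obtain ⟨k, hk, hk'⟩ := h.nb j i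
    have h1 := h.coord j k i hk hk' (h.wt_supp j l)
    rw [hL, hl, dotProduct_zero, h.wt_apply] at h1
    rcases mul_eq_zero.mp h1.symm with h2 | h2
    · exact h2
    · exact absurd h2 (h.coeff_pos j k i hk).ne'
  obtain ⟨l, hl⟩ := (LinearMap.injective_iff_surjective.mp hinj) x
  exact ⟨l, by rw [hL, hl]⟩

end SphereCert

open SphereCert in
theorem SphereCert.isSimplicialSphere [Fintype J] [Nonempty J]
    {F : J → Fin d → V} {c : V → Fin d} {p : V → Fin d → ℝ} {φ : J → Fin d → ℝ} {N : ℝ}
    (h : SphereCert F c p φ N) (Δ : AbstractSimplicialComplex V)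
    (hΔ : ∀ s : Finset V, s ∈ Δ ↔ s.Nonempty ∧ ∃ j, ∀ v ∈ s, F j (c v) = v) :
    IsSimplicialSphere d Δ := by
  classical
  -- facts on points of the realization
  have hfac : ∀ w ∈ realization Δ, ∃ j, ∀ v, w v ≠ 0 → F j (c v) = v := by
    rintro w ⟨s, hs, -, hw, -⟩
    obtain ⟨-, j, hj⟩ := (hΔ s).mp hs
    exact ⟨j, fun v hv => hj v (by by_contra hvs; exact hv (hw v hvs))⟩
  have hmem : ∀ (j : J) (w : V → ℝ), (∀ v, 0 ≤ w v) → ∑ v, w v = 1 →
      (∀ v, w v ≠ 0 → F j (c v) = v) → w ∈ realization Δ := by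
    intro j w hw hs hj
    refine ⟨Finset.univ.filter (fun v => w v ≠ 0), ?_, hw, ?_, hs⟩
    · rw [hΔ]
      constructor
      · by_contra hne
        rw [Finset.not_nonempty_iff_eq_empty, Finset.filter_eq_empty_iff] at hne
        have : ∑ v, w v = 0 := Finset.sum_eq_zero fun v hv => by
          have := hne hv
          push Not at this
          exact this
        rw [this] at hs
        exact zero_ne_one hs
      · exact ⟨j, fun v hv => hj v (Finset.mem_filter.mp hv).2⟩
    · intro v hv
      by_contra hne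
      exact hv (Finset.mem_filter.mpr ⟨Finset.mem_univ _, hne⟩)
  -- the map to Euclidean space
  let G : (V → ℝ) → EuclideanSpace ℝ (Fin d) := fun w => WithLp.toLp 2 (lin p w)
  have hGcont : Continuous G := by
    apply (PiLp.continuous_toLp 2 _).comp
    unfold lin
    fun_prop
  have hG0 : ∀ w : realization Δ, G w ≠ 0 := by
    intro w hw
    obtain ⟨j, hj⟩ := hfac w w.2
    obtain ⟨s, hs, h0, h1, h2⟩ := w.2
    have h3 := h.dot_lin_eq j hj h2
    have h4 : lin p (w : V → ℝ) = 0 := by
      have := congrArg WithLp.ofLp hw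
      simpa [G] using this
    rw [h4, dotProduct_zero] at h3
    exact h.pos.ne h3
  let g : realization Δ → Metric.sphere (0 : EuclideanSpace ℝ (Fin d)) 1 := fun w =>
    ⟨(‖G w‖)⁻¹ • G w, by
      rw [mem_sphere_zero_iff_norm, norm_smul, norm_inv, norm_norm]
      exact inv_mul_cancel₀ (norm_ne_zero_iff.mpr (hG0 w))⟩
  have hgcont : Continuous g := by
    apply Continuous.subtype_mk
    have hc1 : Continuous fun w : realization Δ => G w := hGcont.comp continuous_subtype_val
    exact (hc1.norm.inv₀ (fun w => norm_ne_zero_iff.mpr (hG0 w))).smul hc1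
  have hginj : Function.Injective g := by
    intro w w' hww
    have hww1 : (‖G w‖)⁻¹ • G w = (‖G w'‖)⁻¹ • G w' := congrArg Subtype.val hww
    set t : ℝ := ‖G w‖ * (‖G w'‖)⁻¹ with ht
    have hn : 0 < ‖G w‖ := norm_pos_iff.mpr (hG0 w)
    have hn' : 0 < ‖G w'‖ := norm_pos_iff.mpr (hG0 w')
    have htpos : 0 < t := mul_pos hn (inv_pos.mpr hn')
    have h1 : G w = t • G w' := by
      have := congrArg (fun x => ‖G w‖ • x) hww1
      simp only [smul_smul] at this
      rwa [mul_inv_cancel₀ hn.ne', one_smul] at this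
    have h2 : lin p (w : V → ℝ) = t • lin p (w' : V → ℝ) := by
      have := congrArg WithLp.ofLp h1
      simpa [G] using this
    obtain ⟨j, hj⟩ := hfac w w.2
    obtain ⟨j', hj'⟩ := hfac w' w'.2
    obtain ⟨-, -, w0, -, w1⟩ := w.2
    obtain ⟨-, -, w0', -, w1'⟩ := w'.2
    have e1 := h.dot_lin_eq j hj w1
    have e2 := h.dot_lin_eq j' hj' w1'
    have e3 := h.dot_lin_le j w0' w1'
    have e4 := h.dot_lin_le j' w0 w1
    rw [h2, dotProduct_smul, smul_eq_mul] at e1 e4
    rw [e2] at e4
    have t1 : t ≤ 1 := by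
      by_contra hlt
      push Not at hlt
      have : N < t * N := by nlinarith [h.pos]
      linarith
    have t2 : 1 ≤ t := by
      by_contra hlt
      push Not at hlt
      have h5 : t * (φ j ⬝ᵥ lin p (w' : V → ℝ)) ≤ t * N := mul_le_mul_of_nonneg_left e3 htpos.le
      have h6 : t * N < N := by nlinarith [h.pos]
      linarith
    have t3 : t = 1 := le_antisymm t1 t2
    rw [t3, one_mul] at e1
    rw [t3, one_smul] at h2
    have hj2 := h.supp_of_dot_eq j w0' w1' e1
    apply Subtype.ext
    funext v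
    by_cases hv : F j (c v) = v
    · obtain ⟨k, hk, hk'⟩ := h.nb j (c v)
      have f1 := h.coord j k (c v) hk hk' hj
      have f2 := h.coord j k (c v) hk hk' hj2
      rw [h2, f2, hv] at f1
      have hpos := h.coeff_pos j k (c v) hk
      rw [hv] at hpos
      exact (mul_right_cancel₀ hpos.ne' f1).symm
    · have a1 : (w : V → ℝ) v = 0 := by
        by_contra hne
        exact hv (hj v hne)
      have a2 : (w' : V → ℝ) v = 0 := by
        by_contra hne
        exact hv (hj2 v hne)
      rw [a1, a2]
  have hgsurj : Function.Surjective g := by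
    intro x
    obtain ⟨j, hj⟩ := Finite.exists_max (fun j => φ j ⬝ᵥ (WithLp.ofLp (x : EuclideanSpace ℝ (Fin d))))
    obtain ⟨l, hl⟩ := h.exists_rep j (WithLp.ofLp (x : EuclideanSpace ℝ (Fin d)))
    have hlpos : ∀ i, 0 ≤ l i := by
      intro i
      obtain ⟨k, hk, hk'⟩ := h.nb j i
      have h1 := h.coord j k i hk hk' (h.wt_supp j l)
      rw [h.wt_apply, hl, sub_dotProduct] at h1
      have h2 := hj k
      have h3 := h.coeff_pos j k i hk
      by_contra hneg
      push Not at hneg
      have : l i * (N - φ k ⬝ᵥ p (F j i)) < 0 := mul_neg_of_neg_of_pos hneg h3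
      linarith
    set S := ∑ i, l i with hS
    have hx0 : (x : EuclideanSpace ℝ (Fin d)) ≠ 0 := by
      intro h0
      have := x.2
      rw [h0, mem_sphere_zero_iff_norm, norm_zero] at this
      exact zero_ne_one this
    have hSpos : 0 < S := by
      rcases (Finset.sum_nonneg (fun i _ => hlpos i)).lt_or_eq with h1 | h1
      · exact h1
      · exfalso
        have h2 : ∀ i, l i = 0 := fun i =>
          (Finset.sum_eq_zero_iff_of_nonneg (fun i _ => hlpos i)).mp h1.symm i (Finset.mem_univ _)
        apply hx0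
        have h3 : lin p (h.wt j l) = 0 := by
          unfold lin
          apply Finset.sum_eq_zero
          intro v _
          have : h.wt j l v = 0 := by
            unfold wt
            split_ifs
            · exact h2 _
            · rfl
          rw [this, zero_smul]
        rw [hl] at h3
        exact (WithLp.ofLp_injective 2) h3
    have hwsum : ∑ v, h.wt j l v = S := by
      have h0 := h.sum_wt j l (fun _ r => fun _ => r) (fun v => rfl)
      rcases Nat.eq_zero_or_pos d with hd | hd
      · exfalso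
        subst hd
        rw [hS] at hSpos
        simp at hSpos
      · have := congrFun h0 ⟨0, hd⟩
        simpa [Finset.sum_apply] using this
    have hw : (fun v => S⁻¹ * h.wt j l v) ∈ realization Δ := by
      apply hmem j
      · intro v
        apply mul_nonneg (inv_nonneg.mpr hSpos.le)
        unfold wt
        split_ifs
        · exact hlpos _
        · exact le_refl _
      · rw [← Finset.mul_sum, hwsum, inv_mul_cancel₀ hSpos.ne']
      · intro v hv
        apply h.wt_supp j l
        intro h0
        apply hv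
        rw [h0, mul_zero]
    refine ⟨⟨_, hw⟩, ?_⟩
    apply Subtype.ext
    have hlin : G (fun v => S⁻¹ * h.wt j l v) = S⁻¹ • (x : EuclideanSpace ℝ (Fin d)) := by
      apply WithLp.ofLp_injective 2
      change lin p (fun v => S⁻¹ * h.wt j l v) = S⁻¹ • WithLp.ofLp (x : EuclideanSpace ℝ (Fin d))
      rw [← hl]
      unfold lin
      rw [Finset.smul_sum]
      exact Finset.sum_congr rfl fun v _ => by rw [mul_smul]
    change (‖G (fun v => S⁻¹ * h.wt j l v)‖)⁻¹ • G (fun v => S⁻¹ * h.wt j l v) = x
    have hxn : ‖(x : EuclideanSpace ℝ (Fin d))‖ = 1 := mem_sphere_zero_iff_norm.mp x.2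
    rw [hlin, norm_smul, hxn, norm_inv, mul_one, inv_inv, Real.norm_of_nonneg hSpos.le, smul_smul,
      mul_inv_cancel₀ hSpos.ne', one_smul]
  -- compactness
  have hcpt : IsCompact (realization Δ) := by
    have hcl : IsClosed (realization Δ) := by
      have : realization Δ = ⋃ s ∈ {s : Finset V | s ∈ Δ},
          ((⋂ v, {w : V → ℝ | 0 ≤ w v}) ∩ ((⋂ v, ⋂ (_ : v ∉ s), {w : V → ℝ | w v = 0}) ∩
            {w : V → ℝ | ∑ v, w v = 1})) := by
        ext w
        simp only [realization, Set.mem_ofPred_eq, Set.mem_iUnion, Set.mem_inter_iff,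
          Set.mem_iInter, exists_prop]
      rw [this]
      apply Set.Finite.isClosed_biUnion (Set.toFinite _)
      intro s _
      apply IsClosed.inter
      · exact isClosed_iInter fun v => isClosed_le continuous_const (continuous_apply v)
      · apply IsClosed.inter
        · exact isClosed_iInter fun v => isClosed_iInter fun _ =>
            isClosed_eq (continuous_apply v) continuous_const
        · exact isClosed_eq (continuous_finsetSum _ fun v _ => continuous_apply v)
            continuous_const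
    apply IsCompact.of_isClosed_subset (isCompact_Icc (a := (0 : V → ℝ)) (b := 1)) hcl
    rintro w ⟨s, -, h0, -, h1⟩
    refine ⟨fun v => h0 v, fun v => ?_⟩
    rw [Pi.one_apply, ← h1]
    exact Finset.single_le_sum (fun v _ => h0 v) (Finset.mem_univ v)
  have : CompactSpace (realization Δ) := isCompact_iff_compactSpace.mp hcpt
  exact ⟨Continuous.homeoOfEquivCompactToT2 (f := Equiv.ofBijective g ⟨hginj, hgsurj⟩) hgcont⟩

end Pool.Agent.Lib.MP_5d3ebc_al
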