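import Pool.Agent.Lib.MP_5d3ebc_al.Main
import Pool.Agent.Lib.MP_5d3ebc_al.Sphere

/-!
# Suspension of a balanced complex

The suspension of a balanced complex is balanced (the two new vertices get a new color), and the
weak Lefschetz property of the suspension is controlled by the squares of linear forms.
-/

set_option linter.unusedSectionVars false

namespace Pool.Agent.Lib.MP_5d3ebc_al

open MvPolynomial Finset

variable {V : Type} [Fintype V] [DecidableEq V] {d : ℕ} {J : Type}

/-- The complex with facets `F j`. -/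
def complexOf (F : J → Fin d → V) (c : V → Fin d) (hs : ∀ v, ∃ j, F j (c v) = v) :
    AbstractSimplicialComplex V where
  faces := {s | s.Nonempty ∧ ∃ j, ∀ v ∈ s, F j (c v) = v}
  isRelLowerSet_faces := by
    rintro s ⟨hs, j, hj⟩
    exact ⟨hs, fun t hts ht => ⟨ht, j, fun v hv => hj v (hts hv)⟩⟩
  singleton_mem := by
    intro v
    obtain ⟨j, hj⟩ := hs v
    refine ⟨singleton_nonempty v, j, fun w hw => ?_⟩
    rw [mem_singleton.mp hw, hj]

lemma isFacets_complexOf {F : J → Fin d → V} {c : V → Fin d} (hs : ∀ v, ∃ j, F j (c v) = v)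
    (hc : ∀ j i, c (F j i) = i) : IsFacets (complexOf F c hs) c F :=
  ⟨hc, fun _ => Iff.rfl⟩

lemma IsFacets.isBalanced {F : J → Fin d → V} {c : V → Fin d} {Δ : AbstractSimplicialComplex V}
    (hF : IsFacets Δ c F) (j₀ : J) (hd : 0 < d) : IsBalanced Δ c := by
  refine ⟨?_, ?_, ?_⟩
  · intro s hs
    obtain ⟨-, j, hj⟩ := (hF.mem_iff s).mp hs
    have h1 : s ⊆ univ.image (F j) := fun v hv => mem_image.mpr ⟨c v, mem_univ _, hj v hv⟩
    calc s.card ≤ (univ.image (F j)).card := card_le_card h1
      _ ≤ (univ : Finset (Fin d)).card := card_image_le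
      _ = d := by simp
  · refine ⟨univ.image (F j₀), ?_, ?_⟩
    · rw [hF.mem_iff]
      refine ⟨⟨F j₀ ⟨0, hd⟩, mem_image_of_mem _ (mem_univ _)⟩, j₀, fun v hv => ?_⟩
      obtain ⟨i, -, rfl⟩ := mem_image.mp hv
      rw [hF.color]
    · rw [card_image_of_injective, card_univ, Fintype.card_fin]
      intro i i' h
      rw [← hF.color j₀ i, ← hF.color j₀ i', h]
  · intro u v huv h hcol
    obtain ⟨-, j, hj⟩ := (hF.mem_iff _).mp h
    have h1 := hj u (by simp)
    have h2 := hj v (by simp)
    rw [← hcol, h1] at h2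
    exact huv h2

/-- Facets of the suspension. -/
def susF (F : J → Fin d → V) : J × Bool → Fin (d + 1) → V ⊕ Bool :=
  fun jb => Fin.lastCases (Sum.inr jb.2) (fun i => Sum.inl (F jb.1 i))

/-- Coloring of the suspension. -/
def susC (c : V → Fin d) : V ⊕ Bool → Fin (d + 1) :=
  Sum.elim (fun v => (c v).castSucc) (fun _ => Fin.last d)

@[simp] lemma susF_last (F : J → Fin d → V) (j : J) (b : Bool) :
    susF F (j, b) (Fin.last d) = Sum.inr b := by simp [susF]

@[simp] lemma susF_castSucc (F : J → Fin d → V) (j : J) (b : Bool) (i : Fin d) :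
    susF F (j, b) i.castSucc = Sum.inl (F j i) := by simp [susF]

@[simp] lemma susC_inl (c : V → Fin d) (v : V) : susC c (Sum.inl v) = (c v).castSucc := rfl

@[simp] lemma susC_inr (c : V → Fin d) (b : Bool) : susC c (Sum.inr b) = Fin.last d := rfl

lemma sus_surj [Nonempty J] {F : J → Fin d → V} {c : V → Fin d} (hs : ∀ v, ∃ j, F j (c v) = v) :
    ∀ v, ∃ j, susF F j (susC c v) = v := by
  rintro (v | b)
  · obtain ⟨j, hj⟩ := hs v
    exact ⟨(j, true), by simp [hj]⟩
  · obtain ⟨j⟩ := ‹Nonempty J›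
    exact ⟨(j, b), by simp⟩

lemma sus_color {F : J → Fin d → V} {c : V → Fin d} (hc : ∀ j i, c (F j i) = i) :
    ∀ j i, susC c (susF F j i) = i := by
  rintro ⟨j, b⟩ i
  induction i using Fin.lastCases with
  | last => simp
  | cast i => simp [hc]

/-- The sphere certificate of the suspension. -/
lemma SphereCert.sus {F : J → Fin d → V} {c : V → Fin d} {p : V → Fin d → ℝ}
    {φ : J → Fin d → ℝ} {N : ℝ} (h : SphereCert F c p φ N) :
    SphereCert (susF F) (susC c)
      (Sum.elim (fun v => Fin.snoc (α := fun _ => ℝ) (p v) 0)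
        (fun b => Fin.snoc (α := fun _ => ℝ) (0 : Fin d → ℝ) (if b then 1 else -1)))
      (fun jb => Fin.snoc (α := fun _ => ℝ) (φ jb.1) (if jb.2 then N else -N)) N where
  color := sus_color h.color
  pos := h.pos
  on := by
    rintro ⟨j, b⟩ (v | b') hv
    · simp only [susC_inl, susF_castSucc, Sum.inl.injEq] at hv
      have := h.on j v hv
      simpa [dotProduct, Fin.sum_univ_castSucc] using this
    · simp only [susC_inr, susF_last, Sum.inr.injEq] at hv
      subst hv
      cases b <;> simp [dotProduct, Fin.sum_univ_castSucc]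
  off := by
    rintro ⟨j, b⟩ (v | b') hv
    · simp only [susC_inl, susF_castSucc, ne_eq, Sum.inl.injEq] at hv
      have := h.off j v hv
      simpa [dotProduct, Fin.sum_univ_castSucc] using this
    · simp only [susC_inr, susF_last, ne_eq, Sum.inr.injEq] at hv
      have hN := h.pos
      cases b <;> cases b' <;> simp_all [dotProduct, Fin.sum_univ_castSucc]
  nb := by
    rintro ⟨j, b⟩ i
    induction i using Fin.lastCases with
    | last =>
      refine ⟨(j, !b), by cases b <;> simp, fun i' hi' => ?_⟩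
      induction i' using Fin.lastCases with
      | last => exact absurd rfl hi'
      | cast i' => simp
    | cast i =>
      obtain ⟨k, hk, hk'⟩ := h.nb j i
      refine ⟨(k, b), by simpa using hk, fun i' hi' => ?_⟩
      induction i' using Fin.lastCases with
      | last => simp
      | cast i' =>
        have : i' ≠ i := fun h => hi' (by rw [h])
        simp [hk' i' this]

section algebra

variable (K : Type*) [Field K] {Δ : AbstractSimplicialComplex V} {c : V → Fin d}
  {F : J → Fin d → V} {Δ' : AbstractSimplicialComplex (V ⊕ Bool)}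

lemma sum_filter_castSucc {M : Type*} [AddCommMonoid M] (g : V ⊕ Bool → M) (i : Fin d) :
    ∑ v ∈ univ.filter (fun v => susC c v = i.castSucc), g v =
      ∑ v ∈ univ.filter (fun v => c v = i), g (Sum.inl v) := by
  rw [sum_filter, Fintype.sum_sum_type, sum_filter]
  have h1 : ¬ (Fin.last d = i.castSucc) := fun h => (Fin.castSucc_lt_last i).ne h.symm
  simp [h1, Fin.castSucc_inj]

lemma sum_filter_last {M : Type*} [AddCommMonoid M] (g : V ⊕ Bool → M) :
    ∑ v ∈ univ.filter (fun v => susC c v = Fin.last d), g v =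
      g (Sum.inr true) + g (Sum.inr false) := by
  rw [sum_filter, Fintype.sum_sum_type]
  simp

omit [Field K] [Fintype V] [DecidableEq V] in
lemma dual_prod_inl {R : Type*} [CommRing R] {ι : Type*} (s : Finset ι) (f : ι → R) :
    ∏ i ∈ s, (TrivSqZeroExt.inl (f i) : DualNumber R) = TrivSqZeroExt.inl (∏ i ∈ s, f i) :=
  (map_prod (TrivSqZeroExt.inlHom R R) f s).symm

omit [Field K] [Fintype V] [DecidableEq V] in
lemma dual_sum_inl {R : Type*} [CommRing R] {ι : Type*} (s : Finset ι) (f : ι → R) :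
    ∑ i ∈ s, (TrivSqZeroExt.inl (f i) : DualNumber R) = TrivSqZeroExt.inl (∑ i ∈ s, f i) :=
  (map_sum (TrivSqZeroExt.inlHom R R) f s).symm

omit [Field K] [Fintype V] [DecidableEq V] in
lemma dual_eps_mul_neg {R : Type*} [CommRing R] :
    (DualNumber.eps : DualNumber R) * (-DualNumber.eps) = 0 := by
  rw [mul_neg, DualNumber.eps_mul_eps, neg_zero]

omit [Fintype V] [DecidableEq V] in
/-- A homomorphism killing the generators kills the ideal. -/
lemma eq_zero_of_mem_coloredIdeal {V : Type} [Fintype V] [DecidableEq V] {d : ℕ}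
    {Δ : AbstractSimplicialComplex V} {c : V → Fin d} {T : Type*} [CommRing T]
    [Algebra K T] (f : MvPolynomial V K →ₐ[K] T)
    (h1 : ∀ s : Finset V, s.Nonempty → s ∉ Δ → ∏ v ∈ s, f (X v) = 0)
    (h2 : ∀ i, ∑ v ∈ univ.filter (fun v => c v = i), f (X v) = 0) :
    ∀ a ∈ coloredIdeal K Δ c, f a = 0 := by
  have h3 : coloredIdeal K Δ c ≤ RingHom.ker f.toRingHom := by
    unfold coloredIdeal srIdeal
    rw [sup_le_iff, Ideal.span_le, Ideal.span_le]
    constructor
    · rintro _ ⟨s, hs, hs', rfl⟩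
      rw [SetLike.mem_coe, RingHom.mem_ker, map_prod]
      exact h1 s hs hs'
    · rintro _ ⟨i, rfl⟩
      rw [SetLike.mem_coe, RingHom.mem_ker, theta, map_sum]
      exact h2 i
  intro a ha
  exact h3 ha

/-- The inclusion of the algebra of `Δ` into the algebra of the suspension. -/
lemma exists_iota [Nonempty J] (hF : IsFacets Δ c F) (hF' : IsFacets Δ' (susC c) (susF F)) :
    ∃ ι : ColoredAlgebra K Δ c →ₐ[K] ColoredAlgebra K Δ' (susC c),
      (∀ v, ι (x K Δ c v) = x K Δ' (susC c) (Sum.inl v)) ∧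
      ∀ i, ∀ a ∈ gradedPart K Δ c i, ι a ∈ gradedPart K Δ' (susC c) i := by
  let ι₀ : MvPolynomial V K →ₐ[K] ColoredAlgebra K Δ' (susC c) :=
    (Ideal.Quotient.mkₐ K _).comp (rename Sum.inl)
  have hι₀ : ∀ v, ι₀ (X v) = x K Δ' (susC c) (Sum.inl v) := fun v => by
    simp [ι₀, x]
  have hle : ∀ a ∈ coloredIdeal K Δ c, ι₀ a = 0 := by
    apply eq_zero_of_mem_coloredIdeal
    · intro s hs hs'
      simp only [hι₀]
      have h2 := prod_x_eq_zero K Δ' (susC c) (s := s.map ⟨Sum.inl, Sum.inl_injective⟩)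
        (hs.map) (by
          rw [hF'.mem_iff]
          rintro ⟨-, ⟨j, b⟩, hj⟩
          apply hs'
          rw [hF.mem_iff]
          refine ⟨hs, j, fun v hv => ?_⟩
          have := hj (Sum.inl v) (mem_map_of_mem _ hv)
          simpa using this)
      rwa [prod_map] at h2
    · intro i
      simp only [hι₀]
      rw [← sum_filter_castSucc (c := c) (fun v => x K Δ' (susC c) v) i]
      exact sum_x_color K Δ' (susC c) i.castSucc
  refine ⟨Ideal.Quotient.liftₐ _ ι₀ hle, ?_, ?_⟩
  · intro v
    change ι₀ (X v) = _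
    exact hι₀ v
  · rintro i _ ⟨f, hf, rfl⟩
    refine ⟨rename Sum.inl f, ?_, rfl⟩
    exact (hf : IsHomogeneous f i).rename_isHomogeneous

/-- The map from the algebra of the suspension to the dual numbers over the algebra of `Δ`. -/
lemma exists_pi [Nonempty J] (hF : IsFacets Δ c F) (hF' : IsFacets Δ' (susC c) (susF F)) :
    ∃ π : ColoredAlgebra K Δ' (susC c) →ₐ[K] DualNumber (ColoredAlgebra K Δ c),
      (∀ v, π (x K Δ' (susC c) (Sum.inl v)) = TrivSqZeroExt.inl (x K Δ c v)) ∧
      (π (x K Δ' (susC c) (Sum.inr true)) = DualNumber.eps) ∧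
      ∀ i, ∀ a ∈ gradedPart K Δ' (susC c) i, (π a).fst ∈ gradedPart K Δ c i := by
  let g : V ⊕ Bool → DualNumber (ColoredAlgebra K Δ c) :=
    Sum.elim (fun v => TrivSqZeroExt.inl (x K Δ c v))
      (fun b => if b then DualNumber.eps else - DualNumber.eps)
  let π₀ : MvPolynomial (V ⊕ Bool) K →ₐ[K] DualNumber (ColoredAlgebra K Δ c) := aeval g
  have hle : ∀ a ∈ coloredIdeal K Δ' (susC c), π₀ a = 0 := by
    refine eq_zero_of_mem_coloredIdeal K (T := DualNumber (ColoredAlgebra K Δ c)) π₀ ?_ ?_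
    · intro s hs hs'
      · simp only [π₀, aeval_X]
        by_cases hboth : Sum.inr true ∈ s ∧ Sum.inr false ∈ s
        · have h2 : ∏ v ∈ ({Sum.inr true, Sum.inr false} : Finset (V ⊕ Bool)), g v ∣
              ∏ v ∈ s, g v := by
            apply prod_dvd_prod_of_subset
            intro v hv
            rcases mem_insert.mp hv with rfl | hv
            · exact hboth.1
            · rw [mem_singleton.mp hv]; exact hboth.2
          rw [prod_pair (by simp)] at h2
          have h3 : g (Sum.inr true) * g (Sum.inr false) = 0 := by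
            simp only [g, Sum.elim_inr, if_true, Bool.false_eq_true, if_false]
            exact dual_eps_mul_neg
          rw [h3] at h2
          exact zero_dvd_iff.mp h2
        · -- all apices of `s` are equal to one apex `b`
          obtain ⟨b, hb⟩ : ∃ b : Bool, ∀ b', Sum.inr b' ∈ s → b' = b := by
            by_cases h2 : Sum.inr true ∈ s
            · refine ⟨true, fun b' hb' => ?_⟩
              cases b'
              · exact absurd ⟨h2, hb'⟩ hboth
              · rfl
            · refine ⟨false, fun b' hb' => ?_⟩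
              cases b'
              · rfl
              · exact absurd hb' h2
          set t : Finset V := univ.filter (fun v => Sum.inl v ∈ s) with ht
          have ht' : ∀ v, v ∈ t ↔ Sum.inl v ∈ s := fun v => by simp [ht]
          have htne : t.Nonempty := by
            by_contra hne
            rw [not_nonempty_iff_eq_empty] at hne
            apply hs'
            rw [hF'.mem_iff]
            obtain ⟨j⟩ := ‹Nonempty J›
            refine ⟨hs, (j, b), fun v hv => ?_⟩
            rcases v with v | b'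
            · have := (ht' v).mpr hv
              rw [hne] at this
              exact absurd this (notMem_empty v)
            · rw [hb b' hv]; simp
          have htΔ : t ∉ Δ := by
            intro htΔ
            apply hs'
            rw [hF.mem_iff] at htΔ
            obtain ⟨-, j, hj⟩ := htΔ
            rw [hF'.mem_iff]
            refine ⟨hs, (j, b), fun v hv => ?_⟩
            rcases v with v | b'
            · simp [hj v ((ht' v).mpr hv)]
            · rw [hb b' hv]; simp
          have h2 : ∏ v ∈ t.map ⟨Sum.inl, Sum.inl_injective⟩, g v ∣ ∏ v ∈ s, g v := by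
            apply prod_dvd_prod_of_subset
            intro v hv
            obtain ⟨w, hw, rfl⟩ := mem_map.mp hv
            exact (ht' w).mp hw
          have h3 : ∏ v ∈ t.map ⟨Sum.inl, Sum.inl_injective⟩, g v = 0 := by
            rw [prod_map]
            change ∏ v ∈ t, (TrivSqZeroExt.inl (x K Δ c v) : DualNumber _) = 0
            rw [dual_prod_inl, prod_x_eq_zero K Δ c htne htΔ, TrivSqZeroExt.inl_zero]
          rw [h3] at h2
          exact zero_dvd_iff.mp h2
    · intro i
      · simp only [π₀, aeval_X]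
        induction i using Fin.lastCases with
        | last =>
          rw [sum_filter_last]
          simp [g]
        | cast i =>
          rw [sum_filter_castSucc]
          change ∑ v ∈ univ.filter (fun v => c v = i),
            (TrivSqZeroExt.inl (x K Δ c v) : DualNumber _) = 0
          rw [dual_sum_inl, sum_x_color, TrivSqZeroExt.inl_zero]
  refine ⟨Ideal.Quotient.liftₐ _ π₀ hle, ?_, ?_, ?_⟩
  · intro v
    change π₀ (X (Sum.inl v)) = _
    simp [π₀, g]
  · change π₀ (X (Sum.inr true)) = _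
    simp [π₀, g]
  · rintro i _ ⟨f, hf, rfl⟩
    let ρ : MvPolynomial (V ⊕ Bool) K →ₐ[K] MvPolynomial V K :=
      aeval (Sum.elim X (fun _ => 0))
    refine ⟨ρ f, ?_, ?_⟩
    · have h1 := (hf : IsHomogeneous f i).aeval (n := 1)
        (Sum.elim X (fun _ => 0) : V ⊕ Bool → MvPolynomial V K) (by
          rintro (v | b)
          · exact isHomogeneous_X K v
          · exact isHomogeneous_zero _ _ _)
      rw [one_mul] at h1
      exact h1
    · have h2 : (Ideal.Quotient.mkₐ K (coloredIdeal K Δ c)).comp ρ =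
          (TrivSqZeroExt.fstHom K (ColoredAlgebra K Δ c) (ColoredAlgebra K Δ c)).comp π₀ := by
        apply MvPolynomial.algHom_ext
        rintro (v | b)
        · simp [ρ, π₀, g, x]
        · cases b <;> simp [ρ, π₀, g]
      exact DFunLike.congr_fun h2 f

lemma mul_mem_gradedPart {V : Type} [Fintype V] [DecidableEq V] {d : ℕ}
    {Δ : AbstractSimplicialComplex V} {c : V → Fin d} {i j : ℕ} {a b : ColoredAlgebra K Δ c}
    (ha : a ∈ gradedPart K Δ c i) (hb : b ∈ gradedPart K Δ c j) :
    a * b ∈ gradedPart K Δ c (i + j) := by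
  obtain ⟨f, hf, rfl⟩ := ha
  obtain ⟨g, hg, rfl⟩ := hb
  exact ⟨f * g, IsHomogeneous.mul hf hg,
    map_mul (Ideal.Quotient.mkₐ K (coloredIdeal K Δ c)) f g⟩

/-- The abstract form of the argument: `A'` is `A[y] / (y ^ 2)`. -/
theorem abstract_not_wlp {K A A' : Type*} [Field K] [CommRing A] [Algebra K A] [CommRing A']
    [Algebra K A'] (G : ℕ → Submodule K A) (G' : ℕ → Submodule K A')
    (hG' : ∀ i j a b, a ∈ G' i → b ∈ G' j → a * b ∈ G' (i + j))
    (ι : A →ₐ[K] A') (hιg : ∀ i, ∀ a ∈ G i, ι a ∈ G' i)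
    (π : A' →ₐ[K] DualNumber A) (hπι : ∀ a, π (ι a) = TrivSqZeroExt.inl a)
    (hπg : ∀ i, ∀ a ∈ G' i, (π a).fst ∈ G i)
    (y : A') (hπy : π y = DualNumber.eps) (hyg : y ∈ G' 1) (hyy : y * y = 0)
    (hlin : ∀ ℓ' ∈ G' 1, ∃ ℓ ∈ G 1, ∃ t : K, ℓ' = ι ℓ + t • y)
    (n : ℕ) (I : A →ₗ[K] K)
    (hI : ∀ ℓ ∈ G 1, ∃ β ∈ G n, ℓ ^ 2 * β = 0 ∧ ∃ τ ∈ G (n + 2), I (β * τ) ≠ 0) :
    ¬ ∃ ℓ' ∈ G' 1, ∀ i : ℕ, (∀ a ∈ G' i, ℓ' * a = 0 → a = 0) ∨
      (∀ b ∈ G' (i + 1), ∃ a ∈ G' i, ℓ' * a = b) := by
  rintro ⟨ℓ', hℓ', h⟩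
  obtain ⟨ℓ, hℓ, t, rfl⟩ := hlin ℓ' hℓ'
  obtain ⟨β, hβ, hβ0, τ, hτ, hne⟩ := hI ℓ hℓ
  have hβne : β ≠ 0 := by
    rintro rfl
    apply hne
    rw [zero_mul, map_zero]
  rcases h (n + 1) with h1 | h1
  · -- injectivity fails
    obtain ⟨g, hg⟩ : ∃ g, g = (t • y - ι ℓ) * ι β := ⟨_, rfl⟩
    have hgmem : g ∈ G' (n + 1) := by
      rw [hg, add_comm]
      exact hG' _ _ _ _ (Submodule.sub_mem _ (Submodule.smul_mem _ _ hyg) (hιg 1 _ hℓ))
        (hιg n _ hβ)
    have hg0 : (ι ℓ + t • y) * g = 0 := by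
      have h2 : ι ℓ ^ 2 * ι β = 0 := by rw [← map_pow, ← map_mul, hβ0, map_zero]
      have h3 : (t • y) * (t • y) = 0 := by
        rw [smul_mul_smul_comm, hyy, smul_zero]
      rw [hg]
      linear_combination (ι β) * h3 - h2
    have h4 := h1 g hgmem hg0
    have h5 : π g = 0 := by rw [h4, map_zero]
    rw [hg, map_mul, map_sub, map_smul, hπι, hπι, hπy] at h5
    have h6 := congrArg TrivSqZeroExt.snd h5
    have h7 := congrArg TrivSqZeroExt.fst h5
    simp at h6 h7
    have ht0 : t = 0 := by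
      rcases h6 with h6 | h6
      · exact h6
      · exact absurd h6 hβne
    have h8 : (ι ℓ + t • y) * (ι β * y) = 0 := by
      rw [ht0, zero_smul, add_zero, ← mul_assoc, ← map_mul, h7, map_zero, zero_mul]
    have h9 := h1 (ι β * y) (hG' _ _ _ _ (hιg n _ hβ) hyg) h8
    have h10 : π (ι β * y) = 0 := by rw [h9, map_zero]
    rw [map_mul, hπι, hπy] at h10
    have h11 := congrArg TrivSqZeroExt.snd h10
    apply hβne
    simpa using h11
  · -- surjectivity fails
    obtain ⟨f, hf, hfτ⟩ := h1 (ι τ) (hιg _ _ hτ)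
    have h2 := congrArg π hfτ
    rw [hπι, map_mul, map_add, map_smul, hπι, hπy] at h2
    have h3 := congrArg TrivSqZeroExt.fst h2
    have h4 := congrArg TrivSqZeroExt.snd h2
    simp at h3 h4
    -- `h3 : ℓ * fst = τ`, `h4 : ℓ * snd + t • fst = 0`
    obtain ⟨a, ha⟩ : ∃ a, a = (π f).fst := ⟨_, rfl⟩
    obtain ⟨b, hb⟩ : ∃ b, b = (π f).snd := ⟨_, rfl⟩
    rw [← ha] at h3 h4
    rw [← hb] at h4
    have ht0 : t = 0 := by
      by_contra ht0
      apply hne
      have h6 : β * τ = 0 := by
        have h7 : t • (β * τ) = 0 := by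
          have h8 : t • (β * τ) = β * ℓ * (t • a) := by
            rw [← h3, mul_smul_comm, mul_assoc]
          have h9 : t • a = - (ℓ * b) := by
            rw [add_comm] at h4
            exact eq_neg_of_add_eq_zero_left h4
          rw [h8, h9]
          linear_combination (-b) * hβ0
        exact (smul_eq_zero.mp h7).resolve_left ht0
      rw [h6, map_zero]
    -- now `ℓ' = ι ℓ`
    have hfst := hπg (n + 1) f hf
    rw [← ha] at hfst
    obtain ⟨f2, -, hf2⟩ := h1 (ι a * y) (hG' _ _ _ _ (hιg _ _ hfst) hyg)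
    have h5 := congrArg π hf2
    rw [map_mul, map_mul, ht0, zero_smul, add_zero, hπι, hπι, hπy] at h5
    have h6 := congrArg TrivSqZeroExt.snd h5
    simp at h6
    apply hne
    have h8 : β * τ = 0 := by
      rw [← h3, ← h6]
      linear_combination (TrivSqZeroExt.snd (π f2)) * hβ0
    rw [h8, map_zero]

/-- Failure of the weak Lefschetz property for the suspension. -/
theorem not_hasWLP_sus [Nonempty J] (hF : IsFacets Δ c F)
    (hF' : IsFacets Δ' (susC c) (susF F)) (n : ℕ)
    (I : ColoredAlgebra K Δ c →ₗ[K] K)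
    (hI : ∀ ℓ ∈ gradedPart K Δ c 1, ∃ β ∈ gradedPart K Δ c n, ℓ ^ 2 * β = 0 ∧
        ∃ τ ∈ gradedPart K Δ c (n + 2), I (β * τ) ≠ 0) :
    ¬ WeakLefschetz (gradedPart K Δ' (susC c)) := by
  obtain ⟨ι, hι, hιg⟩ := exists_iota K hF hF'
  obtain ⟨π, hπ, hπy, hπg⟩ := exists_pi K hF hF'
  -- notation for the apex variable
  obtain ⟨y, hy⟩ : ∃ y, y = x K Δ' (susC c) (Sum.inr true) := ⟨_, rfl⟩
  rw [← hy] at hπy
  have hyg : y ∈ gradedPart K Δ' (susC c) 1 := by rw [hy]; exact x_mem K Δ' (susC c) _
  have hyy : y * y = 0 := by rw [hy]; exact mul_x_of_color K hF' rfl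
  have hyneg : x K Δ' (susC c) (Sum.inr false) = - y := by
    have h1 := sum_x_color K Δ' (susC c) (Fin.last d)
    rw [sum_filter_last, ← hy] at h1
    exact (neg_eq_of_add_eq_zero_right h1).symm
  -- `π ∘ ι` is the inclusion
  have hπι : ∀ a, π (ι a) = TrivSqZeroExt.inl a := by
    have h1 : (π.comp ι).comp (Ideal.Quotient.mkₐ K (coloredIdeal K Δ c)) =
        (TrivSqZeroExt.inlAlgHom K (ColoredAlgebra K Δ c) (ColoredAlgebra K Δ c)).comp
          (Ideal.Quotient.mkₐ K (coloredIdeal K Δ c)) := by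
      apply MvPolynomial.algHom_ext
      intro v
      change π (ι (x K Δ c v)) = TrivSqZeroExt.inl (x K Δ c v)
      rw [hι, hπ]
    intro a
    obtain ⟨f, rfl⟩ := Ideal.Quotient.mk_surjective a
    exact DFunLike.congr_fun h1 f
  refine abstract_not_wlp (gradedPart K Δ c) (gradedPart K Δ' (susC c))
    (fun i j a b ha hb => mul_mem_gradedPart K ha hb) ι hιg π hπι hπg y hπy hyg hyy ?_ n I hI
  intro ℓ' hℓ'
  obtain ⟨b, hb⟩ := mem_gradedPart_one K Δ' (susC c) hℓ'
  refine ⟨∑ v, b (Sum.inl v) • x K Δ c v,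
    Submodule.sum_mem _ fun v _ => Submodule.smul_mem _ _ (x_mem K Δ c v),
    b (Sum.inr true) - b (Sum.inr false), ?_⟩
  rw [hb, Fintype.sum_sum_type, Fintype.sum_bool, hyneg, ← hy, map_sum]
  simp only [map_smul, hι]
  rw [smul_neg, sub_smul, sub_eq_add_neg]

end algebra

end Pool.Agent.Lib.MP_5d3ebc_al
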